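import Pool.Agent.Helper18.SG.Goals2
import Pool.Agent.Helper49.Gm.F2
import Pool.Agent.Helper24.Gx.Y3
import Pool.Agent.Helper18.SG.Goals

/-! Packet SG QK: from row lengths to injectivity, with additional points of arbitrary
multiplicity. -/

set_option autoImplicit false

namespace Pool.Agent.Helper61.SG

open Finset Pool.Agent.Lead.Sh Pool.Agent.Helper43.Ah Pool.Agent.Helper43.Gm
open Pool.Agent.Helper18.SG
open Helper18.Np (fm)

/-- the conditions on the rows survive the lengthening of the rows -/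
lemma hypW_of (M S R q i0 : ℕ) (ℓ : ℕ → ℕ) (hM : 1 ≤ M) (hR : 2 * M + 1 ≤ R)
    (h0 : ∀ y, y + 1 < R → M * ℓ y + 3 * M ^ 2 ≤ M * ℓ (y + 1) + ℓ y)
    (h1 : ∀ y, y + 1 < R → R ≤ y + 2 * M + 1 →
      M * ℓ y + (27 + S) * M ^ 2 ≤ M * ℓ (y + 1) + ℓ y)
    (h2 : ∀ y, y + 2 < R → R ≤ y + M + 1 → ℓ y + ℓ (y + 2) ≤ 2 * ℓ (y + 1) + S)
    (N : ℕ) (ν : ℕ → ℕ) (hν : Antitone ν) (hν1 : ∀ c, 1 ≤ ν c) (hνM : ∀ c, ν c ≤ M)
    (htot : ∑ c ∈ range N, (ν c + 1).choose 2 =
      ∑ y ∈ range R, (ℓ y + q + (if R ≤ y + i0 then 1 else 0))) :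
    HypW M (S + 1) R N ν (fun y => ℓ y + q + (if R ≤ y + i0 then 1 else 0)) := by
  have ind : ∀ y, (if R ≤ y + i0 then 1 else 0) ≤ (if R ≤ y + 1 + i0 then 1 else 0 : ℕ) := by
    intro y
    split_ifs <;> omega
  refine ⟨hM, hR, hν, hν1, hνM, ?_, ?_, ?_, htot⟩
  · intro y hy
    have a1 := h0 y hy
    have a2 := Nat.mul_le_mul_left M (ind y)
    rw [Nat.mul_add, Nat.mul_add, Nat.mul_add, Nat.mul_add]
    omega
  · intro y hy hy2
    have a1 := h1 y hy hy2
    have a2 := Nat.mul_le_mul_left M (ind y)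
    rw [Nat.mul_add, Nat.mul_add, Nat.mul_add, Nat.mul_add,
      show 26 + (S + 1) = 27 + S by omega]
    omega
  · intro y hy hy2
    have a1 := h2 y hy hy2
    split_ifs <;> omega

theorem goalQK (hA2 : GoalA2) (hP : GoalP) (hGW : GoalGW) (hF0 : GoalF0) : GoalQK := by
  classical
  intro M S R ℓ D K s0 mm hM hR h0 h1 h2 hD hrow hKs hmm0 htot0
  set s := s0.filter (fun k => 0 < mm k) with hs
  have hss0 : s ⊆ s0 := filter_subset _ _
  have hsum0 : ∑ k ∈ s0, (mm k + 1).choose 2 = ∑ k ∈ s, (mm k + 1).choose 2 := by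
    rw [hs, sum_filter]
    apply sum_congr rfl
    intro k _
    split_ifs with h1
    · rfl
    · rw [show mm k = 0 by omega]; rfl
  rw [hsum0] at htot0
  have hmm : ∀ k ∈ s, mm k ≤ M := fun k hk => hmm0 k (hss0 hk)
  obtain ⟨s', hs', hT1, hT2⟩ := subtotal M _ hM mm s hmm htot0
  obtain ⟨k, hk⟩ := Nat.exists_eq_add_of_le hT1
  have hmm' : ∀ x ∈ s', 1 ≤ mm x ∧ mm x ≤ M := fun x hx =>
    ⟨(mem_filter.1 (hs' hx)).2, hmm x (hs' hx)⟩
  have hsum : ∑ y ∈ range R, (ℓ y + k / R + (if R ≤ y + k % R then 1 else 0)) =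
      ∑ x ∈ s', (mm x + 1).choose 2 := by
    rw [sum_add_distrib, sum_add_distrib, sum_const, card_range, smul_eq_mul, hk,
      ← card_filter]
    have e1 : (range R).filter (fun y => R ≤ y + k % R) = Ico (R - k % R) R := by
      ext y
      rw [mem_filter, mem_range, mem_Ico]
      omega
    have e2 : k % R < R := Nat.mod_lt _ (by omega)
    rw [e1, Nat.card_Ico, show R - (R - k % R) = k % R by omega, add_assoc,
      Nat.div_add_mod]
  obtain ⟨e, ν, hν, hν1, he, hinj, hsumν⟩ := hF0 M s' mm hM hmm'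
  set N := s'.card with hN
  have hyp := hypW_of M S R (k / R) (k % R) ℓ hM hR h0 h1 h2 N ν hν (fun c => (hν1 c).1)
    (fun c => (hν1 c).2) (by rw [hsumν, hsum])
  obtain ⟨t, z, htz, hLo⟩ := hGW M (S + 1) R N ν _ hyp
  obtain ⟨π, ε, hpri⟩ := hP R N ν t z htz
  have hpri2 := Pool.Agent.Helper43.Gm.PkF2.pri_rev _ _ _ _ _ _ hpri
  obtain ⟨e', e'm, e'i, e's⟩ := enum K
  obtain ⟨ε', hpri3⟩ := Pool.Agent.Helper43.Gx.PkY3.pri_add R N K.card ν _ _ _ hpri2
    (fun j => mm (e' j))
  have hinjD := hA2 R D (N + K.card) _ _ _ _ hD hpri3 (by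
    intro y hy
    refine (hrow y hy).trans ?_
    rw [sum_range_add]
    apply Nat.add_le_add
    · have a1 := hLo (R - 1 - y) (by omega)
      have a2 : ∑ c ∈ range N, (if c < N then nv R (ν c) (t c) (z c) (R - 1 - y)
          else mm (e' (c - N)) - y) = Lo R N ν t z (R - 1 - y) := by
        unfold Lo
        apply sum_congr rfl
        intro c hc
        rw [mem_range] at hc
        rw [if_pos hc]
      rw [a2, a1, add_assoc]
      exact Nat.le_add_right _ _
    · refine le_of_eq ?_
      unfold fm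
      rw [← e's (fun k => mm k - y)]
      apply sum_congr rfl
      intro c _
      rw [if_neg (by omega), show N + c - N = c by omega])
  have hdj : ∀ a ∈ s', ∀ b ∈ K, a ≠ b := fun a ha b hb hab =>
    disjoint_left.1 hKs hb (hss0 (hs' (hab ▸ ha)))
  have hfin : Inj D (rows mm (K ∪ s')) := by
    refine inj_relabel (fun c => if c < N then e c else e' (c - N)) ?_ ?_ ?_ hinjD
    · intro c hc
      rw [mem_range] at hc
      rw [mem_union]
      by_cases h1 : c < N
      · right
        simp only [if_pos h1]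
        exact (he c h1).1
      · left
        simp only [if_neg h1]
        exact e'm _ (by omega)
    · intro c hc c' hc' hee
      rw [mem_range] at hc hc'
      by_cases h1 : c < N
      · by_cases h1' : c' < N
        · simp only [if_pos h1, if_pos h1'] at hee
          exact hinj c h1 c' h1' hee
        · simp only [if_pos h1, if_neg h1'] at hee
          exact absurd hee (hdj _ (he c h1).1 _ (e'm _ (by omega)))
      · by_cases h1' : c' < N
        · simp only [if_neg h1, if_pos h1'] at hee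
          exact absurd hee.symm (hdj _ (he c' h1').1 _ (e'm _ (by omega)))
        · simp only [if_neg h1, if_neg h1'] at hee
          have := e'i (c - N) (by omega) (c' - N) (by omega) hee
          omega
    · intro c hc
      rw [mem_range] at hc
      by_cases h1 : c < N
      · simp only [if_pos h1]
        exact ((he c h1).2).symm
      · simp only [if_neg h1]
  exact hfin.mono subset_rfl (rows_mono (union_subset_union subset_rfl (hs'.trans hss0)))

end Pool.Agent.Helper61.SG
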